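import Pool.Agent.H255R.PC.Defs

/-!
# Surfaces dominated by products of curves, and regular surfaces from Galois closures: definitions
-/

open CategoryTheory AlgebraicGeometry

universe u v w

namespace Pool.Agent.H255R.RG

open Pool.Agent.H914 Pool.Agent.H914.VarClass Pool.Agent.H914.VarClass.Obj Pool.Agent.W492.BB
  Pool.Agent.W550.Corr Pool.Agent.TH133 Pool.Agent.Y152.AS Pool.Agent.H255R.PC

variable {k : Type u} [Field k] {𝒱 : VarClass k}

/-- The zero-cycle `z` has degree zero. -/
def DegZero (C : TheoryData.{u, v, 0} 𝒱 ℚ) {X : 𝒱.Obj} (z : C.A X) : Prop :=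
  C.Deg X.dim z ∧ HasDegree C z 0

/-- The zero-cycle `z` has degree zero and lies in the Albanese kernel. -/
def AlbTriv (C : TheoryData.{u, v, 0} 𝒱 ℚ) {X : 𝒱.Obj} (z : C.A X) : Prop :=
  HasDegree C z 0 ∧ InAlbKer C z

/-- The variety `X` is regular (of irregularity zero, `H^1(X, 𝒪) = 0`): its Albanese variety is
trivial, that is, every zero-cycle of degree zero is Albanese-trivial. -/
def IsRegularVar (C : TheoryData.{u, v, 0} 𝒱 ℚ) (X : 𝒱.Obj) : Prop :=
  ∀ z : C.A X, DegZero C z → InAlbKer C z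

/-- `b : Y ⟶ X` is a birational morphism, in the form of the following properties: `b_* [Y] = [X]`,
and `b^* b_* y = y` for all zero-cycles `y` on `Y` (the group `CH_0` of smooth projective varieties
is a birational invariant). -/
def IsBirational (C : TheoryData.{u, v, 0} 𝒱 ℚ) {Y X : 𝒱.Obj} (b : Y ⟶ X) : Prop :=
  Y.dim = X.dim ∧ C.down b 1 = 1 ∧ ∀ y : C.A Y, C.Deg Y.dim y → C.up b (C.down b y) = y

/-- The morphism `f : Y ⟶ X` is of degree `m` (`f_* [Y] = m [X]`), and `Y` and `X` have the same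
dimension. -/
def IsOfDegree (C : TheoryData.{u, v, 0} 𝒱 ℚ) {Y X : 𝒱.Obj} (f : Y ⟶ X) (m : ℚ) : Prop :=
  Y.dim = X.dim ∧ C.down f 1 = m • (1 : C.A X)

/-- The variety `X` is dominated by the variety `W`: there is a rational map from `W` to `X` which
is of finite degree. In other words, there are a variety `Y`, a birational morphism `b : Y ⟶ W`, and
a morphism `f : Y ⟶ X` of degree `m ≠ 0`. -/
def IsRatDominatedBy (C : TheoryData.{u, v, 0} 𝒱 ℚ) (W X : 𝒱.Obj) : Prop :=
  ∃ (Y : 𝒱.Obj) (b : Y ⟶ W) (f : Y ⟶ X) (m : ℚ), IsBirational C b ∧ IsOfDegree C f m ∧ m ≠ 0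

/-- The surface `X` is dominated by the product of two curves. -/
def IsDominatedByTwoCurves (C : TheoryData.{u, v, 0} 𝒱 ℚ) (X : 𝒱.Obj) : Prop :=
  ∃ V W : 𝒱.Obj, V.dim = 1 ∧ W.dim = 1 ∧ IsRatDominatedBy C (V.prod W) X

/-- The curve `V`, with an action `ρ` of the finite group `G`, is a Galois covering of the projective
line with group `G`, and `p : V ⟶ S` is the quotient of `V` by the subgroup `K`. (In the form of the
properties: `ρ (g h) = ρ(g) ρ(h)`, as maps `V ⟶ V`; `p ρ(h) = p` for `h ∈ K`; `p_* [V] = |K| [S]`; and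
for every divisor class `D` of degree zero on `V` the sum of its images under `G` is zero, since it
is the pull-back of a divisor class of degree zero on the quotient `V / G`, which is the projective
line.) -/
structure IsGaloisOverLine (C : TheoryData.{u, v, 0} 𝒱 ℚ) {G : Type} [Group G] [Fintype G]
    (K : Subgroup G) {V S : 𝒱.Obj} (ρ : G → (V ⟶ V)) (p : V ⟶ S) : Prop where
  one : ρ 1 = 𝟙 V
  mul : ∀ g h, ρ (g * h) = ρ h ≫ ρ g
  quot : ∀ h ∈ K, ρ h ≫ p = p
  deg : IsOfDegree C p (Nat.card K)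
  line : ∀ D : C.A V, DegZero C D → ∑ g : G, C.down (ρ g) D = 0

/-- The group `G` acts doubly transitively on `G / K`, and `K ≠ G`: the elements outside `K` form
one double coset of `K`. -/
def IsDoublyTransitive {G : Type} [Group G] (K : Subgroup G) : Prop :=
  K ≠ ⊤ ∧ ∀ g h : G, g ∉ K → h ∉ K → ∃ a ∈ K, ∃ b ∈ K, h = a * g * b

/-- The surface `X` is a smooth projective model of the quotient `(V × W) / G`, where `V` and `W`
are Galois coverings of the projective line with the same group `G`, and the curves `S` and `T` are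
the quotients of `V` and of `W` by a subgroup `K` such that `G` acts doubly transitively on `G / K`
(for example, `S` and `T` are coverings of the projective line of the same degree `d ≥ 2`, with
simple branching, `V` and `W` are their Galois closures, `G` is the symmetric group of degree `d`,
and `K` is the stabiliser of a point). That is: there are a birational morphism
`b : Y ⟶ V × W` and a morphism `π : Y ⟶ X` of degree `|G|` with
`b_* π^* π_* b^* y = ∑_g (ρ(g) × τ(g))_* y` for all zero-cycles `y` on `V × W`. -/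
def IsGaloisQuotient (C : TheoryData.{u, v, 0} 𝒱 ℚ) (S T X : 𝒱.Obj) : Prop :=
  ∃ (G : Type) (_ : Group G) (_ : Fintype G) (K : Subgroup G) (V W : 𝒱.Obj) (ρ : G → (V ⟶ V))
    (τ : G → (W ⟶ W)) (p : V ⟶ S) (r : W ⟶ T) (Y : 𝒱.Obj) (b : Y ⟶ V.prod W) (π : Y ⟶ X),
    IsDoublyTransitive K ∧ V.dim = 1 ∧ W.dim = 1 ∧
    IsGaloisOverLine C K ρ p ∧ IsGaloisOverLine C K τ r ∧
    IsBirational C b ∧ IsOfDegree C π (Nat.card G) ∧
    ∀ y : C.A (V.prod W), C.Deg 2 y →
      C.down b (C.up π (C.down π (C.up b y))) = ∑ g : G, C.down (prodMap (ρ g) (τ g)) y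

/-- For any two curves `S` and `T` of the class there is a surface `X` as in `IsGaloisQuotient`. (Over
an algebraically closed field of characteristic zero: every curve of genus `g` is a simple covering
of the projective line of degree `d`, for every `d > 2 g`, and so `S` and `T` are simple coverings of
the projective line of the same degree.) -/
def HasGaloisQuotients (C : TheoryData.{u, v, 0} 𝒱 ℚ) : Prop :=
  ∀ S T : 𝒱.Obj, S.dim = 1 → T.dim = 1 → ∃ X : 𝒱.Obj, IsGaloisQuotient C S T X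

/-- A two-sided ideal in the correspondences of degree zero between surfaces. -/
structure IsIdeal (C : TheoryData.{u, v, 0} 𝒱 ℚ)
    (J : ∀ X Y : 𝒱.Obj, Set (C.A (X.prod Y))) : Prop where
  left : ∀ {X Y Z : 𝒱.Obj} (Γ : C.A (X.prod Y)) (Δ : C.A (Y.prod Z)), X.dim = 2 → Y.dim = 2 →
    Z.dim = 2 → C.Deg 2 Γ → C.Deg 2 Δ → Δ ∈ J Y Z → C.comp Γ Δ ∈ J X Z
  right : ∀ {X Y Z : 𝒱.Obj} (Γ : C.A (X.prod Y)) (Δ : C.A (Y.prod Z)), X.dim = 2 → Y.dim = 2 →
    Z.dim = 2 → C.Deg 2 Γ → C.Deg 2 Δ → Γ ∈ J X Y → C.comp Γ Δ ∈ J X Z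

/-- The correspondences in `J` from `X` to `Y` act as zero on the Albanese kernel
`F^2 CH_0(X)_ℚ`. -/
def ActsAsZero (C : TheoryData.{u, v, 0} 𝒱 ℚ) (J : ∀ X Y : 𝒱.Obj, Set (C.A (X.prod Y)))
    (X Y : 𝒱.Obj) : Prop :=
  ∀ Z ∈ J X Y, C.Deg 2 Z → ∀ α : C.A X, InAlbKer C α → C.act Z α = 0

end Pool.Agent.H255R.RG
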