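import Pool.Agent.H255R.PC.Main
import Pool.Agent.H255R.RG.Defs

/-!
# Albanese kernels of products of curves and of regular surfaces
-/

open CategoryTheory AlgebraicGeometry

universe u v w

namespace Pool.Agent.H255R.RG

open Pool.Agent.H914 Pool.Agent.H914.VarClass Pool.Agent.H914.VarClass.Obj Pool.Agent.W492.BB
  Pool.Agent.W550.Corr Pool.Agent.TH133 Pool.Agent.Y148.BB Pool.Agent.Y152.AS Pool.Agent.H255R.PC

set_option linter.unusedSectionVars false

variable {k : Type u} [Field k] {𝒱 : VarClass k} {C : TheoryData.{u, v, 0} 𝒱 ℚ}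
  [hC : IsChowProj C] {X Y Z S T V W : 𝒱.Obj}

include hC

lemma pull_zc {f : Y ⟶ X} (h : Y.dim = X.dim) {z : C.A X} (hz : z ∈ C.gr X X.dim) :
    C.pull f z ∈ C.gr Y Y.dim := by
  rw [h]; exact C.pull_mem f hz

lemma push_zc (f : Y ⟶ X) {z : C.A Y} (hz : z ∈ C.gr Y Y.dim) : C.push f z ∈ C.gr X X.dim := by
  have h := C.push_mem f hz
  exact gr_congr (by ring) h

lemma push_pull {f : Y ⟶ X} {m : ℚ} (hf : IsOfDegree C f m) (z : C.A X) :
    C.push f (C.pull f z) = m • z := by
  have h := C.proj_right f 1 z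
  have h2 : C.push f 1 = m • (1 : C.A X) := hf.2
  rwa [one_mul, h2, smul_mul_assoc, one_mul] at h

lemma IsBirational.ofDegree {b : Y ⟶ X} (hb : IsBirational C b) : IsOfDegree C b 1 :=
  ⟨hb.1, by rw [one_smul]; exact hb.2.1⟩

lemma DegZero.pull {f : Y ⟶ X} {m : ℚ} (hf : IsOfDegree C f m) {z : C.A X} (hz : DegZero C z) :
    DegZero C (C.pull f z) := by
  refine ⟨pull_zc hf.1 hz.1, ?_⟩
  have h := hd_pull hf.2 hz.2
  rwa [mul_zero] at h

lemma DegZero.push (f : Y ⟶ X) {z : C.A Y} (hz : DegZero C z) : DegZero C (C.push f z) :=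
  ⟨push_zc f hz.1, hd_push f hz.2⟩

lemma AlbTriv.degZero {z : C.A X} (hz : AlbTriv C z) : DegZero C z := ⟨hz.2.deg, hz.1⟩

lemma AlbTriv.pull {f : Y ⟶ X} {m : ℚ} (hf : IsOfDegree C f m) {z : C.A X} (hz : AlbTriv C z) :
    AlbTriv C (C.pull f z) := by
  refine ⟨(DegZero.pull hf hz.degZero).2, ?_⟩
  rw [← C.act_cograph]
  exact inAlbKer_act (gr_congr (by rw [hf.1]) (cograph_mem f)) hz.2

lemma AlbTriv.push (f : Y ⟶ X) {z : C.A Y} (hz : AlbTriv C z) : AlbTriv C (C.push f z) := by
  refine ⟨hd_push f hz.1, ?_⟩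
  rw [← C.act_graph]
  exact inAlbKer_act (graph_mem' _) hz.2

lemma albTriv_zero : AlbTriv C (0 : C.A X) := by
  refine ⟨hasDegree_zero, Submodule.zero_mem _, fun Y W _ => ?_⟩
  rw [TheoryData.act_apply, map_zero, mul_zero, map_zero]

lemma AlbTriv.add {z w : C.A X} (hz : AlbTriv C z) (hw : AlbTriv C w) : AlbTriv C (z + w) := by
  refine ⟨?_, Submodule.add_mem _ hz.2.deg hw.2.deg, fun Y W hW => ?_⟩
  · have h := hd_add hz.1 hw.1
    rwa [add_zero] at h
  · have h1 := hz.2.act_eq_zero Y W hW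
    have h2 := hw.2.act_eq_zero Y W hW
    rw [TheoryData.act_apply] at h1 h2 ⊢
    rw [map_add, mul_add, map_add, h1, h2, add_zero]

lemma AlbTriv.smul (q : ℚ) {z : C.A X} (hz : AlbTriv C z) : AlbTriv C (q • z) := by
  refine ⟨?_, Submodule.smul_mem _ _ hz.2.deg, fun Y W hW => ?_⟩
  · have h := hd_smul q hz.1
    rwa [mul_zero] at h
  · have h1 := hz.2.act_eq_zero Y W hW
    rw [TheoryData.act_apply] at h1 ⊢
    rw [map_smul, mul_smul_comm, map_smul, h1, smul_zero]

section points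

variable {pt : ∀ X : 𝒱.Obj, Set (C.A X)} (hp : IsPoints C pt)

include hp

/-- The zero-cycles of degree zero on a product of two curves with trivial push-forwards. -/
lemma span_of_push (hV : V.dim = 1) (hW : W.dim = 1) {z : C.A (V.prod W)} (hz : DegZero C z)
    (h1 : C.push (fst V W) z = 0) (h2 : C.push (snd V W) z = 0) :
    z ∈ Submodule.span ℚ {z | ∃ α : C.A V, ∃ β : C.A W, DegZero C α ∧ DegZero C β ∧
      z = C.ext α β} := by
  obtain ⟨hz', hz0⟩ := hz
  obtain ⟨o, ho, ho1⟩ := exists_hd_one (C := C) V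
  obtain ⟨o', ho', ho1'⟩ := exists_hd_one (C := C) W
  set G := Submodule.span ℚ {z : C.A (V.prod W) | ∃ α : C.A V, ∃ β : C.A W, DegZero C α ∧
    DegZero C β ∧ z = C.ext α β} with hG
  have key : G.mkQ (z - C.ext (C.push (fst V W) z) o' - C.ext o (C.push (snd V W) z)) = 0 := by
    have h1 := hp.zero_of (G.mkQ ∘ₗ (LinearMap.id - ((extB C V W).flip o') ∘ₗ C.push (fst V W) -
      (extB C V W o) ∘ₗ C.push (snd V W))) ?_ hz' hz0
    · exact h1
    intro x hx x' hx'
    have h2 : ∀ x ∈ pt (V.prod W), G.mkQ (x - C.ext (C.push (fst V W) x) o' -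
        C.ext o (C.push (snd V W) x)) = G.mkQ (- C.ext o o') := by
      intro x hx
      obtain ⟨t, ht, w, hw, rfl⟩ := hp.prod V W x hx
      have h3 : C.ext (t - o) (w - o') ∈ G := Submodule.subset_span
        ⟨t - o, w - o', ⟨Submodule.sub_mem _ (hp.mem ht) ho, hd_sub_self (hp.hd ht) ho1⟩,
          ⟨Submodule.sub_mem _ (hp.mem hw) ho', hd_sub_self (hp.hd hw) ho1'⟩, rfl⟩
      rw [push_fst_ext t (hp.hd hw), push_snd_ext (hp.hd ht) w, one_smul, one_smul]
      rw [← sub_eq_zero, ← map_sub, Submodule.mkQ_apply, Submodule.Quotient.mk_eq_zero]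
      have e1 : C.ext t w - C.ext t o' - C.ext o w - -C.ext o o' = C.ext (t - o) (w - o') := by
        rw [ext_sub_left, ext_sub_right, ext_sub_right]
        abel
      rw [e1]
      exact h3
    have h4 : G.mkQ (x - C.ext (C.push (fst V W) x) o' - C.ext o (C.push (snd V W) x)) -
        G.mkQ (x' - C.ext (C.push (fst V W) x') o' - C.ext o (C.push (snd V W) x')) = 0 := by
      rw [h2 x hx, h2 x' hx', sub_self]
    rw [map_sub]
    exact h4
  rw [h1, h2, C.ext_zero_left, C.ext_zero_right, sub_zero, sub_zero, Submodule.mkQ_apply,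
    Submodule.Quotient.mk_eq_zero] at key
  exact key

/-- The Albanese-trivial zero-cycles on a product of two curves. -/
lemma span_of_albTriv (hV : V.dim = 1) (hW : W.dim = 1) {z : C.A (V.prod W)}
    (hz : AlbTriv C z) :
    z ∈ Submodule.span ℚ {z | ∃ α : C.A V, ∃ β : C.A W, DegZero C α ∧ DegZero C β ∧
      z = C.ext α β} := by
  refine span_of_push hp hV hW hz.degZero ?_ ?_
  · rw [← C.act_graph]
    exact hz.2.act_eq_zero V _ (gr_congr (by rw [hV, Nat.cast_one]) (graph_mem' _))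
  · rw [← C.act_graph]
    exact hz.2.act_eq_zero W _ (gr_congr (by rw [hW, Nat.cast_one]) (graph_mem' _))

omit hp in
lemma albTriv_ext (hcube : TheoremOfTheCube C) (hV : V.dim = 1) (hW : W.dim = 1) {a : C.A V}
    {b : C.A W} (ha : DegZero C a) (hb : DegZero C b) : AlbTriv C (C.ext a b) := by
  refine ⟨?_, ext_inAlbKer hcube hV hW (mem_one hV ha.1) (mem_one hW hb.1) ha.2 hb.2⟩
  have h := hd_ext ha.2 hb.2
  rwa [mul_zero] at h

lemma albTriv_of_push (hcube : TheoremOfTheCube C) (hV : V.dim = 1) (hW : W.dim = 1)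
    {z : C.A (V.prod W)} (hz : DegZero C z) (h1 : C.push (fst V W) z = 0)
    (h2 : C.push (snd V W) z = 0) : AlbTriv C z := by
  have h := span_of_push hp hV hW hz h1 h2
  clear h1 h2 hz
  induction h using Submodule.span_induction with
  | mem z hz =>
    obtain ⟨α, β, hα, hβ, rfl⟩ := hz
    exact albTriv_ext hcube hV hW hα hβ
  | zero => exact albTriv_zero
  | add x y _ _ hx hy => exact hx.add hy
  | smul c x _ hx => exact hx.smul c

end points

/-- The Galois translates. -/
lemma translate {G : Type} [Group G] [Fintype G] {K : Subgroup G} {ρ : G → (V ⟶ V)}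
    {p : V ⟶ S} (h : IsGaloisOverLine C K ρ p) (hK : IsDoublyTransitive K) {a : C.A S}
    (ha : DegZero C a) :
    (∀ g ∈ K, C.push p (C.push (ρ g) (C.pull p a)) = (Nat.card K : ℚ) • a) ∧
    (∀ g, g ∉ K → C.push p (C.push (ρ g) (C.pull p a)) =
      (-((Nat.card K : ℚ) ^ 2 / ((Nat.card G : ℚ) - Nat.card K))) • a) := by
  classical
  have hiso : ∀ g, ρ g ≫ ρ g⁻¹ = 𝟙 V ∧ ρ g⁻¹ ≫ ρ g = 𝟙 V := by
    intro g
    rw [← h.mul, ← h.mul, inv_mul_cancel, mul_inv_cancel, h.one]
    exact ⟨rfl, rfl⟩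
  have hmul : ∀ (g g' : G) (x : C.A V), C.push (ρ (g * g')) x = C.push (ρ g) (C.push (ρ g') x) := by
    intro g g' x
    rw [h.mul, C.push_comp]
  have hinv : ∀ g ∈ K, C.push (ρ g) (C.pull p a) = C.pull p a := by
    intro g hg
    have e1 : C.pull p a = C.pull (ρ g) (C.pull p a) := by
      rw [← C.pull_comp, h.quot g hg]
    rw [e1, push_pull_iso C (ρ g) (ρ g⁻¹) (hiso g).1 (hiso g).2, ← e1]
  have hpush : ∀ g ∈ K, ∀ x : C.A V, C.push p (C.push (ρ g) x) = C.push p x := by
    intro g hg x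
    rw [← C.push_comp, h.quot g hg]
  have h1 : ∀ g ∈ K, C.push p (C.push (ρ g) (C.pull p a)) = (Nat.card K : ℚ) • a := by
    intro g hg
    rw [hpush g hg, push_pull h.deg]
  refine ⟨h1, ?_⟩
  -- the double coset
  have h2 : ∀ g g' : G, g ∉ K → g' ∉ K → C.push p (C.push (ρ g') (C.pull p a)) =
      C.push p (C.push (ρ g) (C.pull p a)) := by
    intro g g' hg hg'
    obtain ⟨x, hx, y, hy, rfl⟩ := hK.2 g g' hg hg'
    rw [mul_assoc, hmul, hpush x hx, hmul, hinv y hy]
  intro g hg
  set t := C.push p (C.push (ρ g) (C.pull p a)) with ht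
  have h3 := h.line (C.pull p a) (DegZero.pull h.deg ha)
  have h4 : ∑ g' : G, C.push p (C.push (ρ g') (C.pull p a)) = 0 := by
    have h5 : ∑ g' : G, C.push (ρ g') (C.pull p a) = 0 := h3
    rw [← map_sum, h5, map_zero]
  have h5 : ∑ g' : G, C.push p (C.push (ρ g') (C.pull p a)) =
      ∑ g' : G, (if g' ∈ K then (Nat.card K : ℚ) • a else t) := by
    refine Finset.sum_congr rfl fun g' _ => ?_
    split_ifs with hg'
    · exact h1 g' hg'
    · exact h2 g g' hg hg'
  have hcard : (Finset.univ.filter (fun g' : G => g' ∈ K)).card = Nat.card K := by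
    rw [Nat.card_eq_fintype_card, Fintype.card_subtype]
  have hcardG : (Finset.univ.filter (fun g' : G => g' ∉ K)).card = Nat.card G - Nat.card K := by
    have h6 := Finset.card_filter_add_card_filter_not (s := (Finset.univ : Finset G))
      (p := fun g' => g' ∈ K)
    rw [hcard, Finset.card_univ, ← Nat.card_eq_fintype_card] at h6
    omega
  rw [h5, Finset.sum_ite, Finset.sum_const, Finset.sum_const, hcard, hcardG] at h4
  have hpos : 0 < (Finset.univ.filter (fun g' : G => g' ∉ K)).card :=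
    Finset.card_pos.2 ⟨g, Finset.mem_filter.2 ⟨Finset.mem_univ _, hg⟩⟩
  rw [hcardG] at hpos
  have hlt : Nat.card K ≤ Nat.card G := by omega
  have hne : (Nat.card G : ℚ) - Nat.card K ≠ 0 := by
    rw [← Nat.cast_sub hlt]
    exact_mod_cast hpos.ne'
  rw [← Nat.cast_smul_eq_nsmul ℚ, ← Nat.cast_smul_eq_nsmul ℚ, Nat.cast_sub hlt, smul_smul] at h4
  have h7 : ((Nat.card G : ℚ) - Nat.card K) • t = (-((Nat.card K : ℚ) * Nat.card K)) • a := by
    rw [neg_smul, eq_neg_iff_add_eq_zero, add_comm]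
    exact h4
  have h8 : t = (((Nat.card G : ℚ) - Nat.card K)⁻¹ * -((Nat.card K : ℚ) * Nat.card K)) • a := by
    rw [mul_smul, ← h7, inv_smul_smul₀ hne]
  rw [h8]
  congr 1
  field_simp

/-- The constant of `IsGaloisQuotient`. -/
noncomputable def cst (G : Type) [Group G] (K : Subgroup G) : ℚ :=
  (Nat.card K : ℚ) ^ 3 + (Nat.card K : ℚ) ^ 4 / ((Nat.card G : ℚ) - Nat.card K)

omit hC in
lemma cst_pos {G : Type} [Group G] [Fintype G] {K : Subgroup G} (hK : K ≠ ⊤) : 0 < cst G K := by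
  have h1 : 0 < (Nat.card K : ℚ) := by exact_mod_cast Nat.card_pos
  have h2 : (Nat.card K : ℚ) < Nat.card G := by
    have h3 : Nat.card K ≤ Nat.card G := Nat.card_le_card_of_injective _ Subtype.val_injective
    have h4 : Nat.card K ≠ Nat.card G := fun h => hK (Subgroup.card_eq_iff_eq_top K |>.1 h)
    exact_mod_cast lt_of_le_of_ne h3 h4
  have h3 : 0 < (Nat.card G : ℚ) - Nat.card K := by linarith
  unfold cst
  positivity

/-- The sum over the group of the products of the translates. -/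
lemma sum_translates {G : Type} [Group G] [Fintype G] {K : Subgroup G} {ρ : G → (V ⟶ V)}
    {τ : G → (W ⟶ W)} {p : V ⟶ S} {r : W ⟶ T} (h : IsGaloisOverLine C K ρ p)
    (h' : IsGaloisOverLine C K τ r) (hK : IsDoublyTransitive K) {a : C.A S} {b : C.A T}
    (ha : DegZero C a) (hb : DegZero C b) :
    C.push (prodMap p r) (∑ g : G, C.push (prodMap (ρ g) (τ g))
      (C.pull (prodMap p r) (C.ext a b))) = cst G K • C.ext a b := by
  classical
  obtain ⟨h1, h2⟩ := translate h hK ha
  obtain ⟨h1', h2'⟩ := translate h' hK hb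
  have h3 : ∀ g : G, C.push (prodMap p r) (C.push (prodMap (ρ g) (τ g))
      (C.pull (prodMap p r) (C.ext a b))) = (if g ∈ K then ((Nat.card K : ℚ) ^ 2) • C.ext a b else
      ((Nat.card K : ℚ) ^ 4 / ((Nat.card G : ℚ) - Nat.card K) ^ 2) • C.ext a b) := by
    intro g
    rw [pull_ext, push_ext, push_ext]
    split_ifs with hg
    · rw [h1 g hg, h1' g hg, ← extB_apply, map_smul, map_smul, LinearMap.smul_apply, smul_smul,
        extB_apply, sq]
    · rw [h2 g hg, h2' g hg, ← extB_apply, map_smul, map_smul, LinearMap.smul_apply, smul_smul,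
        extB_apply]
      congr 1
      rw [neg_mul_neg, ← sq, div_pow, ← pow_mul]
  have hcard : (Finset.univ.filter (fun g' : G => g' ∈ K)).card = Nat.card K := by
    rw [Nat.card_eq_fintype_card, Fintype.card_subtype]
  have hcardG : (Finset.univ.filter (fun g' : G => g' ∉ K)).card + Nat.card K = Nat.card G := by
    have h6 := Finset.card_filter_add_card_filter_not (s := (Finset.univ : Finset G))
      (p := fun g' => g' ∈ K)
    rw [hcard, Finset.card_univ, ← Nat.card_eq_fintype_card] at h6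
    omega
  have h4 : Nat.card K ≠ Nat.card G := fun h => hK.1 (Subgroup.card_eq_iff_eq_top K |>.1 h)
  have hne : (Nat.card G : ℚ) - Nat.card K ≠ 0 := by
    rw [sub_ne_zero]
    exact_mod_cast h4.symm
  have hc : ((Finset.univ.filter (fun g' : G => g' ∉ K)).card : ℚ) =
      (Nat.card G : ℚ) - Nat.card K := by
    rw [← hcardG]; push_cast; ring
  rw [map_sum, Finset.sum_congr rfl fun g _ => h3 g, Finset.sum_ite, Finset.sum_const,
    Finset.sum_const, hcard, ← Nat.cast_smul_eq_nsmul ℚ, ← Nat.cast_smul_eq_nsmul ℚ, hc,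
    smul_smul, smul_smul, ← add_smul, cst]
  congr 1
  field_simp

end Pool.Agent.H255R.RG
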