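import Pool.Agent.H255R.RG.Main

/-!
# The reduction to regular surfaces
-/

open CategoryTheory AlgebraicGeometry

universe u v w

namespace Pool.Agent.H255R.RG

open Pool.Agent.H914 Pool.Agent.H914.VarClass Pool.Agent.H914.VarClass.Obj Pool.Agent.W492.BB
  Pool.Agent.W550.Corr Pool.Agent.TH133 Pool.Agent.Y148.BB Pool.Agent.Y152.AS Pool.Agent.H255R.PC

set_option linter.unusedSectionVars false

variable {k : Type u} [Field k] {𝒱 : VarClass k} {C : TheoryData.{u, v, 0} 𝒱 ℚ}
  [hC : IsChowProj C] {X Y Z S T V W : 𝒱.Obj}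

include hC

/-- The cycles in the Albanese kernel have degree zero. -/
lemma albTriv_of (hX : 1 ≤ X.dim) {z : C.A X} (hz : InAlbKer C z) : AlbTriv C z := by
  refine ⟨?_, hz⟩
  obtain ⟨q, hq⟩ := hC.degree X z hz.deg
  have hq' : HasDegree C z q := hq
  obtain ⟨h, hh, q0, hq0, hpol⟩ := hC.polarized X
  have h1 : C.act (C.pull (snd X X) h) z = 0 := hz.act_eq_zero X _ (C.pull_mem _ hh)
  rw [TheoryData.act_apply, C.proj_left, (hq' X).1, mul_smul_comm, mul_one] at h1
  have h2 : q • h ^ X.dim = 0 := by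
    obtain ⟨n, hn⟩ : ∃ n, X.dim = n + 1 := ⟨X.dim - 1, by omega⟩
    rw [hn, pow_succ', ← smul_mul_assoc, h1, zero_mul]
  have h3 : (q * q0) • (1 : C.A X) = 0 := by
    have h4 : C.push (snd X X) (C.pull (fst X X) (h ^ X.dim)) = q0 • (1 : C.A X) := hpol
    rw [mul_smul, ← h4, ← map_smul, ← map_smul, h2, map_zero, map_zero]
  have h4 : q • (1 : C.A X) = 0 := by
    rw [mul_comm, mul_smul] at h3
    rw [← one_smul ℚ (q • (1 : C.A X)), ← inv_mul_cancel₀ hq0, mul_smul, h3, smul_zero]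
  have h5 : q • z = 0 := by
    rw [← one_mul z, ← smul_mul_assoc, h4, zero_mul]
  by_cases h0 : q = 0
  · rwa [h0] at hq'
  · have h6 : z = 0 := by
      rw [← one_smul ℚ z, ← inv_mul_cancel₀ h0, mul_smul, h5, smul_zero]
    rw [h6]
    exact hasDegree_zero

/-- The Albanese kernel of `X` is a retract of the Albanese kernel of `Y`. -/
structure IsRetract (X Y : 𝒱.Obj) (A : C.A (X.prod Y)) (B : C.A (Y.prod X)) (m : ℚ) :
    Prop where
  degA : A ∈ C.gr (X.prod Y) 2
  degB : B ∈ C.gr (Y.prod X) 2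
  ne : m ≠ 0
  eq : ∀ α : C.A X, InAlbKer C α → C.act B (C.act A α) = m • α

lemma comp_mem2 (hX : X.dim = 2) (hY : Y.dim = 2) {Γ : C.A (X.prod Y)} {Δ : C.A (Y.prod Z)}
    (hΓ : Γ ∈ C.gr (X.prod Y) 2) (hΔ : Δ ∈ C.gr (Y.prod Z) 2) :
    C.comp Γ Δ ∈ C.gr (X.prod Z) 2 := by
  have e1 : Γ ∈ C.gr (X.prod Y) (X.dim + 0) := gr_congr (by rw [hX]; norm_num) hΓ
  have e2 : Δ ∈ C.gr (Y.prod Z) (Y.dim + 0) := gr_congr (by rw [hY]; norm_num) hΔ
  exact gr_congr (by rw [hX]; norm_num) (comp_mem C e1 e2)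

lemma act_alb (hY : Y.dim = 2) {Γ : C.A (X.prod Y)} (hΓ : Γ ∈ C.gr (X.prod Y) 2) {z : C.A X}
    (hz : InAlbKer C z) : InAlbKer C (C.act Γ z) :=
  inAlbKer_act (gr_congr (by rw [hY]; norm_num) hΓ) hz

lemma act_smul' (Γ : C.A (X.prod Y)) (m : ℚ) (z : C.A X) : C.act Γ (m • z) = m • C.act Γ z := by
  rw [TheoryData.act_apply, TheoryData.act_apply, map_smul, mul_smul_comm, map_smul]

lemma act_zero' (Γ : C.A (X.prod Y)) : C.act Γ (0 : C.A X) = 0 := by
  rw [TheoryData.act_apply, map_zero, mul_zero, map_zero]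

lemma IsRetract.trans (hX : X.dim = 2) (hY : Y.dim = 2) (hZ : Z.dim = 2) {A : C.A (X.prod Y)}
    {B : C.A (Y.prod X)} {m : ℚ} {A' : C.A (Y.prod Z)} {B' : C.A (Z.prod Y)} {m' : ℚ}
    (h : IsRetract X Y A B m) (h' : IsRetract Y Z A' B' m') :
    IsRetract X Z (C.comp A A') (C.comp B' B) (m' * m) := by
  refine ⟨comp_mem2 hX hY h.degA h'.degA, comp_mem2 hZ hY h'.degB h.degB,
    mul_ne_zero h'.ne h.ne, fun α hα => ?_⟩
  rw [C.act_comp, C.act_comp, h'.eq _ (act_alb hY h.degA hα), act_smul', h.eq α hα, smul_smul]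

/-- A morphism of finite degree. -/
lemma retract_of_degree (hX : X.dim = 2) {f : Y ⟶ X} {m : ℚ} (hf : IsOfDegree C f m)
    (hm : m ≠ 0) : IsRetract X Y (C.cograph f) (C.graph f) m := by
  refine ⟨gr_congr (by rw [hX]; norm_num) (cograph_mem f),
    gr_congr (by rw [hX]; norm_num) (graph_mem' f), hm, fun α _ => ?_⟩
  rw [C.act_cograph, C.act_graph, push_pull hf]

/-- A birational morphism. -/
lemma retract_of_birational (hX : X.dim = 2) {b : Y ⟶ X} (hb : IsBirational C b) :
    IsRetract Y X (C.graph b) (C.cograph b) 1 := by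
  refine ⟨gr_congr (by rw [hX]; norm_num) (graph_mem' b),
    gr_congr (by rw [hX]; norm_num) (cograph_mem b), one_ne_zero, fun α hα => ?_⟩
  rw [C.act_graph, C.act_cograph, one_smul]
  exact hb.2.2 α hα.deg

/-- A surface dominated by a surface. -/
lemma retract_of_dominated (hX : X.dim = 2) (hW : W.dim = 2) (h : IsRatDominatedBy C W X) :
    ∃ A B m, IsRetract (C := C) X W A B m := by
  obtain ⟨Y, b, f, m, hb, hf, hm⟩ := h
  have hY : Y.dim = 2 := by rw [hf.1, hX]
  exact ⟨_, _, _, (retract_of_degree hX hf hm).trans hX hY hW (retract_of_birational hW hb)⟩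

section points

variable {pt : ∀ X : 𝒱.Obj, Set (C.A X)} (hp : IsPoints C pt)

include hp

/-- The regular surface of a Galois quotient. -/
theorem galois (hcube : TheoremOfTheCube C) (hS : S.dim = 1) (hT : T.dim = 1)
    (hX : IsGaloisQuotient C S T X) :
    X.dim = 2 ∧ IsDominatedByTwoCurves C X ∧ IsRegularVar C X ∧
      ∃ A B m, IsRetract (C := C) (S.prod T) X A B m := by
  classical
  obtain ⟨G, _, _, K, V, W, ρ, τ, p, r, Y, b, π, hK, hV, hW, hρ, hτ, hb, hπ, hq⟩ := hX
  have hVW : (V.prod W).dim = 2 := by rw [dim_prod, hV, hW]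
  have hST : (S.prod T).dim = 2 := by rw [dim_prod, hS, hT]
  have hY : Y.dim = 2 := by rw [hb.1, hVW]
  have hX2 : X.dim = 2 := by rw [← hπ.1, hY]
  have hG : (Nat.card G : ℚ) ≠ 0 := by exact_mod_cast Nat.card_pos.ne'
  have hq' : ∀ y ∈ C.gr (V.prod W) 2, C.push b (C.pull π (C.push π (C.pull b y))) =
      ∑ g : G, C.push (prodMap (ρ g) (τ g)) y := hq
  refine ⟨hX2, ⟨V, W, hV, hW, Y, b, π, _, hb, hπ, hG⟩, ?_, ?_⟩
  · -- regularity
    intro z hz
    set y := C.push b (C.pull π z) with hy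
    have hy0 : DegZero C y := (DegZero.pull hπ hz).push b
    have hyd : y ∈ C.gr (V.prod W) 2 := gr_congr (by rw [hVW]; norm_num) hy0.1
    have h1 : C.pull b y = C.pull π z := hb.2.2 _ (pull_zc hπ.1 hz.1)
    have h2 : (Nat.card G : ℚ) • y = ∑ g : G, C.push (prodMap (ρ g) (τ g)) y := by
      rw [← hq' y hyd, h1, push_pull hπ, map_smul, map_smul]
    have hfst : C.push (fst V W) y = 0 := by
      have h3 : (Nat.card G : ℚ) • C.push (fst V W) y = 0 := by
        rw [← map_smul, h2, map_sum]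
        have h4 : ∀ g : G, C.push (fst V W) (C.push (prodMap (ρ g) (τ g)) y) =
            C.push (ρ g) (C.push (fst V W) y) := by
          intro g
          rw [← C.push_comp, prodMap_fst, C.push_comp]
        rw [Finset.sum_congr rfl fun g _ => h4 g]
        exact hρ.line _ (hy0.push _)
      rw [← one_smul ℚ (C.push (fst V W) y), ← inv_mul_cancel₀ hG, mul_smul, h3, smul_zero]
    have hsnd : C.push (snd V W) y = 0 := by
      have h3 : (Nat.card G : ℚ) • C.push (snd V W) y = 0 := by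
        rw [← map_smul, h2, map_sum]
        have h4 : ∀ g : G, C.push (snd V W) (C.push (prodMap (ρ g) (τ g)) y) =
            C.push (τ g) (C.push (snd V W) y) := by
          intro g
          rw [← C.push_comp, prodMap_snd, C.push_comp]
        rw [Finset.sum_congr rfl fun g _ => h4 g]
        exact hτ.line _ (hy0.push _)
      rw [← one_smul ℚ (C.push (snd V W) y), ← inv_mul_cancel₀ hG, mul_smul, h3, smul_zero]
    have h5 : AlbTriv C y := albTriv_of_push hp hcube hV hW hy0 hfst hsnd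
    have h6 : AlbTriv C (C.push π (C.pull b y)) := (h5.pull hb.ofDegree).push π
    rw [h1, push_pull hπ] at h6
    have h7 := h6.smul (Nat.card G : ℚ)⁻¹
    rw [inv_smul_smul₀ hG] at h7
    exact h7.2
  · -- the retraction
    set q := prodMap p r with hqdef
    have hqd : IsOfDegree C q ((Nat.card K : ℚ) * Nat.card K) := by
      refine ⟨by rw [hVW, hST], ?_⟩
      have h1 : (1 : C.A (V.prod W)) = C.ext 1 1 := by
        rw [TheoryData.ext, map_one, map_one, one_mul]
      have h2 : (1 : C.A (S.prod T)) = C.ext 1 1 := by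
        rw [TheoryData.ext, map_one, map_one, one_mul]
      have h3 : C.push p 1 = (Nat.card K : ℚ) • (1 : C.A S) := hρ.deg.2
      have h4 : C.push r 1 = (Nat.card K : ℚ) • (1 : C.A T) := hτ.deg.2
      change C.push q 1 = _
      rw [h1, push_ext, h3, h4, ← extB_apply, map_smul, map_smul, LinearMap.smul_apply,
        smul_smul, extB_apply, ← h2]
    refine ⟨C.comp (C.cograph q) (C.comp (C.cograph b) (C.graph π)),
      C.comp (C.cograph π) (C.comp (C.graph b) (C.graph q)), cst G K, ?_, ?_,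
      (cst_pos hK.1).ne', ?_⟩
    · exact comp_mem2 hST hVW (gr_congr (by rw [hST]; norm_num) (cograph_mem q))
        (comp_mem2 hVW hY (gr_congr (by rw [hVW]; norm_num) (cograph_mem b))
          (gr_congr (by rw [hX2]; norm_num) (graph_mem' π)))
    · exact comp_mem2 hX2 hY (gr_congr (by rw [hX2]; norm_num) (cograph_mem π))
        (comp_mem2 hY hVW (gr_congr (by rw [hVW]; norm_num) (graph_mem' b))
          (gr_congr (by rw [hST]; norm_num) (graph_mem' q)))
    · intro α hα
      simp only [C.act_comp, C.act_cograph, C.act_graph]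
      have h1 : C.pull q α ∈ C.gr (V.prod W) 2 :=
        gr_congr (by rw [hVW]; norm_num) (pull_zc hqd.1 hα.deg)
      rw [hq' _ h1]
      have h2 := span_of_albTriv hp hS hT (albTriv_of (by rw [hST]; norm_num) hα)
      clear h1 hα
      induction h2 using Submodule.span_induction with
      | mem z hz =>
        obtain ⟨a, c, ha, hc, rfl⟩ := hz
        exact sum_translates hρ hτ hK ha hc
      | zero => simp
      | add x y _ _ hx hy =>
        simp only [map_add, Finset.sum_add_distrib, smul_add] at hx hy ⊢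
        rw [hx, hy]
      | smul c x _ hx =>
        simp only [map_smul, ← Finset.smul_sum] at hx ⊢
        rw [hx, smul_comm]

/-- The reduction to regular surfaces, for all ideals of correspondences. -/
theorem reduction (hcube : TheoremOfTheCube C) (hG : HasGaloisQuotients C)
    {J : ∀ X Y : 𝒱.Obj, Set (C.A (X.prod Y))} (hJ : IsIdeal C J)
    (h : ∀ X Y : 𝒱.Obj, X.dim = 2 → Y.dim = 2 → IsDominatedByTwoCurves C X →
      IsDominatedByTwoCurves C Y → IsRegularVar C X → IsRegularVar C Y → ActsAsZero C J X Y) :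
    ∀ X Y : 𝒱.Obj, X.dim = 2 → Y.dim = 2 → IsDominatedByTwoCurves C X →
      IsDominatedByTwoCurves C Y → ActsAsZero C J X Y := by
  have key : ∀ X : 𝒱.Obj, X.dim = 2 → IsDominatedByTwoCurves C X → ∃ X' : 𝒱.Obj, X'.dim = 2 ∧
      IsDominatedByTwoCurves C X' ∧ IsRegularVar C X' ∧
      ∃ A B m, IsRetract (C := C) X X' A B m := by
    intro X hX ⟨V, W, hV, hW, hd⟩
    have hVW : (V.prod W).dim = 2 := by rw [dim_prod, hV, hW]
    obtain ⟨A, B, m, h1⟩ := retract_of_dominated hX hVW hd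
    obtain ⟨X', hX'⟩ := hG V W hV hW
    obtain ⟨h2, h3, h4, A', B', m', h5⟩ := galois hp hcube hV hW hX'
    exact ⟨X', h2, h3, h4, _, _, _, h1.trans hX hVW h2 h5⟩
  intro X Y hX hY hXd hYd Z hZ hZ2 α hα
  obtain ⟨X', hX', hXd', hXr', A, B, m, hA⟩ := key X hX hXd
  obtain ⟨Y', hY', hYd', hYr', A', B', m', hA'⟩ := key Y hY hYd
  have h1 : C.comp B (C.comp Z A') ∈ J X' Y' :=
    hJ.left _ _ hX' hX hY' hA.degB (comp_mem2 hX hY hZ2 hA'.degA)
      (hJ.right _ _ hX hY hY' hZ2 hA'.degA hZ)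
  have h2 := h X' Y' hX' hY' hXd' hYd' hXr' hYr' _ h1
    (comp_mem2 hX' hX hA.degB (comp_mem2 hX hY hZ2 hA'.degA)) (C.act A α)
    (act_alb hX' hA.degA hα)
  rw [C.act_comp, C.act_comp, hA.eq α hα, act_smul', act_smul'] at h2
  have h3 := congrArg (C.act B') h2
  rw [act_smul', act_zero', hA'.eq _ (act_alb hY hZ2 hα), smul_smul] at h3
  have h4 : m * m' ≠ 0 := mul_ne_zero hA.ne hA'.ne
  rw [← one_smul ℚ (C.act Z α), ← inv_mul_cancel₀ h4, mul_smul, h3, smul_zero]

end points

end Pool.Agent.H255R.RG
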